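import Pool.Agent.Q62.CC.Stm

/-!
Job CC-29 (project CC of helper62): the change of variables `s = r² / 2`.
-/

set_option autoImplicit false

open Set Filter Topology MeasureTheory
open scoped ENNReal ContDiff

namespace Pool.Agent.Q247.CC

open Pool.Agent.Q62.CC

namespace Chr

theorem image_sq (a b : ℝ) (ha : 0 < a) (A : Set ℝ) :
    (fun s : ℝ => √(2 * s)) ⁻¹' A ∩ Icc (a ^ 2 / 2) (b ^ 2 / 2) ⊆
      (fun r : ℝ => r ^ 2 / 2) '' (A ∩ Icc a (|b|)) := by
  rintro s ⟨hs, h1, h2⟩
  have hs0 : 0 ≤ 2 * s := by nlinarith [sq_nonneg a]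
  refine ⟨√(2 * s), ⟨hs, ?_, ?_⟩, ?_⟩
  · rw [Real.le_sqrt ha.le hs0]
    linarith
  · rw [Real.sqrt_le_left (abs_nonneg b), sq_abs]
    linarith
  · simp only
    rw [Real.sq_sqrt hs0]
    ring

theorem map_le (a b : ℝ) (ha : 0 < a) (hab : a < b) :
    (volume.restrict (Icc (a ^ 2 / 2) (b ^ 2 / 2))).map (fun s : ℝ => √(2 * s)) ≤
      ENNReal.ofReal b • volume.restrict (Icc a b) := by
  have hb : 0 < b := ha.trans hab
  have hm : Measurable (fun s : ℝ => √(2 * s)) :=
    (Real.continuous_sqrt.comp (continuous_const.mul continuous_id)).measurable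
  rw [Measure.le_iff]
  intro A hA
  rw [Measure.map_apply hm hA, Measure.restrict_apply (hm hA), Measure.smul_apply,
    Measure.restrict_apply hA, smul_eq_mul]
  have h1 := image_sq a b ha A
  rw [abs_of_pos hb] at h1
  refine (measure_mono h1).trans ?_
  have h2 := lintegral_image_eq_lintegral_abs_deriv_mul (s := A ∩ Icc a b)
    (f := fun r : ℝ => r ^ 2 / 2) (f' := fun r => r) (hA.inter measurableSet_Icc)
    (fun x _ => by
      have h3 := ((hasDerivAt_id x).pow 2).div_const 2
      refine (h3.congr_deriv ?_).hasDerivWithinAt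
      simp)
    (by
      rintro x ⟨-, hx, -⟩ y ⟨-, hy, -⟩ h
      have h4 : x ^ 2 = y ^ 2 := by
        have h5 : x ^ 2 / 2 = y ^ 2 / 2 := h
        linarith
      exact (pow_left_inj₀ (ha.le.trans hx) (ha.le.trans hy) two_ne_zero).1 h4)
    (fun _ => 1)
  rw [setLIntegral_one] at h2
  rw [h2]
  have h6 : ∫⁻ x in A ∩ Icc a b, ENNReal.ofReal |x| * 1 ≤
      ∫⁻ _ in A ∩ Icc a b, ENNReal.ofReal b := by
    refine setLIntegral_mono measurable_const ?_
    rintro x ⟨-, hx, hx'⟩
    rw [mul_one]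
    refine ENNReal.ofReal_le_ofReal ?_
    rw [abs_of_pos (ha.trans_le hx)]
    exact hx'
  refine h6.trans ?_
  rw [setLIntegral_const]

end Chr

open Chr in
theorem t_CHR : S_CHR := by
  intro a b ha hab
  have hb : 0 < b := ha.trans hab
  have hc : Continuous (fun s : ℝ => √(2 * s)) :=
    Real.continuous_sqrt.comp (continuous_const.mul continuous_id)
  refine ⟨fun f hf => ?_, fun G => ?_⟩
  · have h1 : MemLp f 2 ((volume.restrict (Icc (a ^ 2 / 2) (b ^ 2 / 2))).map
        (fun s : ℝ => √(2 * s))) :=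
      (hf.smul_measure ENNReal.ofReal_ne_top).mono_measure (map_le a b ha hab)
    have h2 : MemLp (fun s => f (√(2 * s))) 2 (volume.restrict (Icc (a ^ 2 / 2) (b ^ 2 / 2))) :=
      (memLp_map_measure_iff h1.1 hc.aemeasurable).1 h1
    refine MemLp.of_le_mul (c := b) h2 (hc.aestronglyMeasurable.mul h2.1) ?_
    rw [ae_restrict_iff' measurableSet_Icc]
    refine Eventually.of_forall fun s hs => ?_
    rw [norm_mul]
    refine mul_le_mul_of_nonneg_right ?_ (norm_nonneg _)
    rw [Real.norm_of_nonneg (Real.sqrt_nonneg _), Real.sqrt_le_left hb.le]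
    linarith [hs.2]
  · have h1 := lintegral_image_eq_lintegral_abs_deriv_mul (s := Icc (a ^ 2 / 2) (b ^ 2 / 2))
      (f := fun x : ℝ => 2 * x) (f' := fun _ => 2) measurableSet_Icc
      (fun x _ => by
        have h3 := (hasDerivAt_id x).const_mul 2
        refine (h3.congr_deriv ?_).hasDerivWithinAt
        simp)
      (by
        rintro x - y - h
        have h5 : 2 * x = 2 * y := h
        linarith)
      (fun s => G (s / 2))
    have h2 : (fun x : ℝ => 2 * x) '' Icc (a ^ 2 / 2) (b ^ 2 / 2) = Icc (a ^ 2) (b ^ 2) := by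
      ext x
      constructor
      · rintro ⟨y, ⟨h3, h4⟩, rfl⟩
        exact ⟨by simp only; linarith, by simp only; linarith⟩
      · rintro ⟨h3, h4⟩
        exact ⟨x / 2, ⟨by linarith, by linarith⟩, by simp only; ring⟩
    rw [h2] at h1
    rw [h1, ← lintegral_const_mul' _ _ ENNReal.ofNat_ne_top]
    refine lintegral_congr fun x => ?_
    rw [abs_two, mul_div_cancel_left₀ x two_ne_zero]
    norm_num

end Pool.Agent.Q247.CC
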